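import Mathlib

/-!
EXT: extrapolation from product measures to the full sum.
-/

set_option linter.dupNamespace false

namespace Pool.Agent.Helper94.HT

open Finset

/-- the extrapolation constant -/
noncomputable def Kext (r D : ℕ) : ℝ := 2 * (r + 1) * (16 * r * (D + 1) ^ 2) ^ r

namespace ExtAux

open Polynomial

lemma cheb_le {D : ℕ} {p : ℝ[X]} (hdeg : p.degree ≤ D) {E : ℝ} (hE : 0 ≤ E)
    (hb : ∀ x ∈ Set.Icc (-1 : ℝ) 1, |p.eval x| ≤ E) {x : ℝ} (hx : 1 ≤ x) :
    |p.eval x| ≤ E * (Polynomial.Chebyshev.T ℝ D).eval x := by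
  have key : ∀ Q : ℝ[X], Q.degree ≤ D → (∀ x ∈ Set.Icc (-1 : ℝ) 1, |Q.eval x| ≤ E) →
      ∀ ε : ℝ, 0 < ε → Q.eval x ≤ (E + ε) * (Polynomial.Chebyshev.T ℝ D).eval x := by
    intro Q hQ hQb ε hε
    have hBε : 0 < E + ε := by linarith
    have h1 : (C (E + ε)⁻¹ * Q).degree ≤ D := by
      rw [degree_C_mul (inv_ne_zero hBε.ne')]; exact hQ
    have h2 : ∀ x ∈ Set.Icc (-1 : ℝ) 1, |(C (E + ε)⁻¹ * Q).eval x| ≤ 1 := by
      intro x hx
      rw [eval_mul, eval_C, abs_mul, abs_of_pos (inv_pos.mpr hBε), inv_mul_le_iff₀ hBε, mul_one]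
      linarith [hQb x hx]
    have h3 := Polynomial.Chebyshev.eval_iterate_derivative_le_of_forall_abs_le_one
      (n := D) (k := 0) hx h1 h2
    simp only [Function.iterate_zero, id] at h3
    rwa [eval_mul, eval_C, inv_mul_le_iff₀ hBε] at h3
  have key2 : ∀ Q : ℝ[X], Q.degree ≤ D → (∀ x ∈ Set.Icc (-1 : ℝ) 1, |Q.eval x| ≤ E) →
      Q.eval x ≤ E * (Polynomial.Chebyshev.T ℝ D).eval x := by
    intro Q hQ hQb
    refine le_of_forall_pos_le_add ?_
    intro ε hε
    set t := (Polynomial.Chebyshev.T ℝ D).eval x with ht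
    have h := key Q hQ hQb (ε / (|t| + 1)) (by positivity)
    have h' : ε / (|t| + 1) * t ≤ ε := by
      rw [div_mul_eq_mul_div, div_le_iff₀ (by positivity)]
      have := le_abs_self t
      nlinarith
    linarith
  rw [abs_le]
  constructor
  · have h := key2 (-p) (by rwa [degree_neg]) (by
      intro x hx; rw [eval_neg, abs_neg]; exact hb x hx)
    rw [eval_neg] at h
    linarith
  · exact key2 p hdeg hb

lemma one_add_le_cosh (t : ℝ) (ht : 0 ≤ t) : 1 + t ^ 2 / 2 ≤ Real.cosh t := by
  have h1 : Real.cosh t = 1 + 2 * Real.sinh (t / 2) ^ 2 := by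
    have h2 := Real.cosh_two_mul (t / 2)
    have h3 := Real.cosh_sq (t / 2)
    have h4 : 2 * (t / 2) = t := by ring
    rw [h4] at h2
    rw [h2, h3]
    ring
  have h2 : t / 2 ≤ Real.sinh (t / 2) := Real.self_le_sinh_iff.mpr (by linarith)
  have h3 : (t / 2) ^ 2 ≤ Real.sinh (t / 2) ^ 2 := by
    apply pow_le_pow_left₀ (by linarith) h2
  rw [h1]
  nlinarith

lemma T_le_two (D : ℕ) {x : ℝ} (hx : 1 ≤ x) (hx' : x ≤ 1 + (1 / ((D : ℝ) + 1)) ^ 2 / 2) :
    (Polynomial.Chebyshev.T ℝ D).eval x ≤ 2 := by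
  set t := Real.arcosh x with ht
  have h0 : 0 ≤ t := Real.arcosh_nonneg hx
  have h1 : Real.cosh t = x := Real.cosh_arcosh hx
  have hD : (0 : ℝ) < (D : ℝ) + 1 := by positivity
  have h2 : t ≤ 1 / ((D : ℝ) + 1) := by
    have h3 : Real.cosh t ≤ Real.cosh (1 / ((D : ℝ) + 1)) := by
      rw [h1]
      exact hx'.trans (one_add_le_cosh _ (by positivity))
    rw [Real.cosh_le_cosh, abs_of_nonneg h0, abs_of_pos (by positivity)] at h3
    exact h3
  have h3 : (Polynomial.Chebyshev.T ℝ D).eval x = Real.cosh ((D : ℝ) * t) := by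
    rw [← h1]
    have := Polynomial.Chebyshev.T_real_cosh t (D : ℤ)
    simpa using this
  rw [h3]
  have h4 : (D : ℝ) * t ≤ 1 := by
    calc (D : ℝ) * t ≤ D * (1 / ((D : ℝ) + 1)) := by gcongr
      _ ≤ 1 := by
        rw [mul_one_div, div_le_one hD]
        linarith
  have h5 : Real.cosh ((D : ℝ) * t) ≤ Real.cosh 1 := by
    rw [Real.cosh_le_cosh, abs_of_nonneg (by positivity), abs_of_pos one_pos]
    exact h4
  refine h5.trans ?_
  rw [Real.cosh_eq]
  have := Real.exp_one_lt_d9
  have := Real.exp_neg_one_lt_d9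
  linarith

/-- extrapolation from `[0, s]` to `1` -/
lemma extrap_one {D : ℕ} {p : ℝ[X]} (hdeg : p.degree ≤ D) {E : ℝ} (hE : 0 ≤ E) {s : ℝ}
    (hs : 1 - 2 / (16 * ((D : ℝ) + 1) ^ 2) ≤ s) (hs1 : s ≤ 1)
    (hb : ∀ x ∈ Set.Icc (0 : ℝ) s, |p.eval x| ≤ E) : |p.eval 1| ≤ 2 * E := by
  have hD : (0 : ℝ) < (D : ℝ) + 1 := by positivity
  have hD1 : (1 : ℝ) ≤ ((D : ℝ) + 1) ^ 2 := by
    have : (0 : ℝ) ≤ D := by positivity
    nlinarith
  have hsm : 2 / (16 * ((D : ℝ) + 1) ^ 2) ≤ 1 / 8 := by
    rw [div_le_iff₀ (by positivity)]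
    linarith
  have hs0 : 7 / 8 ≤ s := by linarith
  have hspos : 0 < s := by linarith
  set Q : ℝ[X] := p.comp (C (s / 2) * X + C (s / 2)) with hQ
  have hQe : ∀ x, Q.eval x = p.eval (s / 2 * x + s / 2) := by
    intro x
    simp [hQ]
  have hQd : Q.degree ≤ D := by
    rw [← natDegree_le_iff_degree_le] at hdeg ⊢
    refine natDegree_comp_le.trans ?_
    have h1 : (C (s / 2) * X + C (s / 2) : ℝ[X]).natDegree ≤ 1 := by
      compute_degree
    calc p.natDegree * (C (s / 2) * X + C (s / 2) : ℝ[X]).natDegree ≤ p.natDegree * 1 :=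
          Nat.mul_le_mul_left _ h1
      _ ≤ D := by rw [mul_one]; exact hdeg
  have hQb : ∀ x ∈ Set.Icc (-1 : ℝ) 1, |Q.eval x| ≤ E := by
    intro x hx
    rw [hQe]
    apply hb
    constructor
    · nlinarith [hx.1]
    · nlinarith [hx.2]
  set x1 : ℝ := 2 / s - 1 with hx1
  have h1 : 1 ≤ x1 := by
    rw [hx1]
    have : 2 ≤ 2 / s := by
      rw [le_div_iff₀ hspos]
      linarith
    linarith
  have h2 : x1 ≤ 1 + (1 / ((D : ℝ) + 1)) ^ 2 / 2 := by
    rw [hx1]
    have h3 : 2 / s ≤ 2 + (1 / ((D : ℝ) + 1)) ^ 2 / 2 := by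
      rw [div_le_iff₀ hspos]
      set u : ℝ := (1 / ((D : ℝ) + 1)) ^ 2 with hu
      have hu0 : 0 ≤ u := by positivity
      have hu1 : 2 / (16 * ((D : ℝ) + 1) ^ 2) = u / 8 := by
        rw [hu]
        field_simp
        norm_num
      rw [hu1] at hs
      nlinarith
    linarith
  have h3 := cheb_le hQd hE hQb h1
  have h4 := T_le_two D h1 h2
  have h5 : Q.eval x1 = p.eval 1 := by
    rw [hQe]
    congr 1
    rw [hx1]
    field_simp
    ring
  rw [h5] at h3
  calc |p.eval 1| ≤ E * (Polynomial.Chebyshev.T ℝ D).eval x1 := h3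
    _ ≤ E * 2 := by gcongr
    _ = 2 * E := by ring

/-- extrapolation from `[0, τ₀]` to `1` by Lagrange interpolation -/
lemma lagrange_one {r : ℕ} {q : ℝ[X]} (hdeg : q.degree ≤ r) {B : ℝ} {τ : ℝ}
    (hτ : 0 < τ) (hτ1 : τ ≤ 1) (hb : ∀ x ∈ Set.Icc (0 : ℝ) τ, |q.eval x| ≤ B) :
    |q.eval 1| ≤ (r + 1) * (r / τ) ^ r * B := by
  classical
  set v : ℕ → ℝ := fun j => j * τ / r with hv
  have hB : 0 ≤ B := (abs_nonneg _).trans (hb 0 ⟨le_rfl, hτ.le⟩)
  have hvI : ∀ j ∈ Finset.range (r + 1), v j ∈ Set.Icc (0 : ℝ) τ := by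
    intro j hj
    have hj' : j ≤ r := by
      have := Finset.mem_range.mp hj
      omega
    constructor
    · rw [hv]; positivity
    · rw [hv]
      rcases Nat.eq_zero_or_pos r with h0 | h0
      · subst h0
        simp
        exact hτ.le
      · have hr : (0 : ℝ) < r := by exact_mod_cast h0
        simp only
        rw [div_le_iff₀ hr]
        have : (j : ℝ) ≤ r := by exact_mod_cast hj'
        nlinarith
  have hdiff : ∀ i ∈ Finset.range (r + 1), ∀ j ∈ Finset.range (r + 1), i ≠ j →
      0 < r ∧ τ / r ≤ |v i - v j| := by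
    intro i hi j hj hij
    have hi' := Finset.mem_range.mp hi
    have hj' := Finset.mem_range.mp hj
    have h0 : 0 < r := by omega
    have hr : (0 : ℝ) < r := by exact_mod_cast h0
    refine ⟨h0, ?_⟩
    have h1 : v i - v j = ((i : ℝ) - j) * (τ / r) := by
      rw [hv]; ring
    rw [h1, abs_mul, abs_of_pos (show 0 < τ / r by positivity)]
    have h2 : (1 : ℝ) ≤ |(i : ℝ) - j| := by
      have h3 : (1 : ℤ) ≤ |(i : ℤ) - j| := by
        apply Int.one_le_abs
        omega
      exact_mod_cast h3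
    have h3 : 0 < τ / r := by positivity
    nlinarith
  have hinj : Set.InjOn v (Finset.range (r + 1) : Finset ℕ) := by
    intro i hi j hj hij
    by_contra hne
    obtain ⟨h0, h1⟩ := hdiff i (by simpa using hi) j (by simpa using hj) hne
    rw [hij, sub_self, abs_zero] at h1
    have hr : (0 : ℝ) < r := by exact_mod_cast h0
    have : 0 < τ / r := by positivity
    linarith
  have hlt : q.degree < (Finset.range (r + 1)).card := by
    rw [Finset.card_range]
    refine lt_of_le_of_lt hdeg ?_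
    exact_mod_cast Nat.lt_succ_self r
  have hint := Lagrange.eq_interpolate hinj hlt
  have hev : q.eval 1 = ∑ i ∈ Finset.range (r + 1), q.eval (v i) *
      ∏ j ∈ (Finset.range (r + 1)).erase i, ((v i - v j)⁻¹ * (1 - v j)) := by
    conv_lhs => rw [hint]
    rw [Lagrange.interpolate_apply, eval_finsetSum]
    refine Finset.sum_congr rfl fun i _ => ?_
    rw [eval_mul, eval_C, Lagrange.basis, eval_prod]
    congr 1
    refine Finset.prod_congr rfl fun j _ => ?_
    rw [Lagrange.basisDivisor]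
    simp
  rw [hev]
  have hterm : ∀ i ∈ Finset.range (r + 1), |q.eval (v i) *
      ∏ j ∈ (Finset.range (r + 1)).erase i, ((v i - v j)⁻¹ * (1 - v j))| ≤
      B * (r / τ) ^ r := by
    intro i hi
    rw [abs_mul, Finset.abs_prod]
    have hc : ((Finset.range (r + 1)).erase i).card = r := by
      rw [Finset.card_erase_of_mem hi, Finset.card_range]
      omega
    have hp : ∏ j ∈ (Finset.range (r + 1)).erase i, |(v i - v j)⁻¹ * (1 - v j)| ≤
        (r / τ) ^ r := by
      calc ∏ j ∈ (Finset.range (r + 1)).erase i, |(v i - v j)⁻¹ * (1 - v j)|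
          ≤ ∏ j ∈ (Finset.range (r + 1)).erase i, ((r : ℝ) / τ) := by
            apply Finset.prod_le_prod
            · intro j _; exact abs_nonneg _
            · intro j hj
              obtain ⟨hji, hj⟩ := Finset.mem_erase.mp hj
              obtain ⟨h0, h1⟩ := hdiff i hi j hj hji.symm
              have hr : (0 : ℝ) < r := by exact_mod_cast h0
              have h2 := hvI j hj
              have h3 : |1 - v j| ≤ 1 := by
                rw [abs_le]
                constructor <;> linarith [h2.1, h2.2]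
              have h4 : |(v i - v j)⁻¹| ≤ r / τ := by
                rw [abs_inv]
                have h5 : 0 < τ / r := by positivity
                calc |v i - v j|⁻¹ ≤ (τ / r)⁻¹ := by
                      apply inv_anti₀ h5 h1
                  _ = r / τ := by rw [inv_div]
              rw [abs_mul]
              calc |(v i - v j)⁻¹| * |1 - v j| ≤ (r / τ) * 1 := by
                    apply mul_le_mul h4 h3 (abs_nonneg _) (by positivity)
                _ = r / τ := mul_one _
        _ = (r / τ) ^ r := by rw [Finset.prod_const, hc]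
    exact mul_le_mul (hb _ (hvI i hi)) hp (Finset.prod_nonneg fun _ _ => abs_nonneg _) hB
  calc |∑ i ∈ Finset.range (r + 1), q.eval (v i) *
      ∏ j ∈ (Finset.range (r + 1)).erase i, ((v i - v j)⁻¹ * (1 - v j))|
      ≤ ∑ i ∈ Finset.range (r + 1), |q.eval (v i) *
      ∏ j ∈ (Finset.range (r + 1)).erase i, ((v i - v j)⁻¹ * (1 - v j))| :=
        Finset.abs_sum_le_sum_abs _ _
    _ ≤ ∑ i ∈ Finset.range (r + 1), B * (r / τ) ^ r := Finset.sum_le_sum hterm
    _ = (r + 1) * (r / τ) ^ r * B := by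
        rw [Finset.sum_const, Finset.card_range, nsmul_eq_mul]
        push_cast
        ring

/-- the weights of the four colours -/
def wt (α τ : ℝ) : Fin 4 → ℝ := ![α, τ, τ, 1 - α - 2 * τ]

lemma sum_wt (α τ : ℝ) : ∑ j, wt α τ j = 1 := by
  simp [wt, Fin.sum_univ_four]
  ring

lemma prod_ite_pow {n : ℕ} (A : Finset (Fin n)) (a : ℝ) :
    ∏ v : Fin n, (if v ∈ A then a else 1) = a ^ A.card := by
  rw [Finset.prod_ite, Finset.prod_const_one, mul_one, Finset.prod_const]
  congr 2
  ext v
  simp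

/-- the product measure of the colourings which are constant on three disjoint sets -/
lemma sum_colour {n : ℕ} (α τ : ℝ) {A B C : Finset (Fin n)} (hAB : Disjoint A B)
    (hAC : Disjoint A C) (hBC : Disjoint B C) :
    (∑ t : Fin n → Fin 4, (∏ v, wt α τ (t v)) *
      (if A ⊆ univ.filter (fun v => t v = 0) ∧ B ⊆ univ.filter (fun v => t v = 1) ∧
        C ⊆ univ.filter (fun v => t v = 2) then (1 : ℝ) else 0)) =
      α ^ A.card * τ ^ (B.card + C.card) := by
  classical
  have h1 : ∀ t : Fin n → Fin 4, (∏ v, wt α τ (t v)) *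
      (if A ⊆ univ.filter (fun v => t v = 0) ∧ B ⊆ univ.filter (fun v => t v = 1) ∧
        C ⊆ univ.filter (fun v => t v = 2) then (1 : ℝ) else 0) =
      ∏ v, (wt α τ (t v) * (if (v ∈ A → t v = 0) ∧ (v ∈ B → t v = 1) ∧ (v ∈ C → t v = 2)
        then (1 : ℝ) else 0)) := by
    intro t
    rw [Finset.prod_mul_distrib]
    congr 1
    by_cases h : A ⊆ univ.filter (fun v => t v = 0) ∧ B ⊆ univ.filter (fun v => t v = 1) ∧
        C ⊆ univ.filter (fun v => t v = 2)
    · rw [if_pos h]
      symm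
      apply Finset.prod_eq_one
      intro v _
      rw [if_pos]
      refine ⟨fun hv => ?_, fun hv => ?_, fun hv => ?_⟩
      · exact (Finset.mem_filter.mp (h.1 hv)).2
      · exact (Finset.mem_filter.mp (h.2.1 hv)).2
      · exact (Finset.mem_filter.mp (h.2.2 hv)).2
    · rw [if_neg h]
      symm
      have : ∃ v, ¬ ((v ∈ A → t v = 0) ∧ (v ∈ B → t v = 1) ∧ (v ∈ C → t v = 2)) := by
        by_contra hcon
        push Not at hcon
        apply h
        refine ⟨fun v hv => ?_, fun v hv => ?_, fun v hv => ?_⟩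
        · simpa using (hcon v).1 hv
        · simpa using (hcon v).2.1 hv
        · simpa using (hcon v).2.2 hv
      obtain ⟨v, hv⟩ := this
      exact Finset.prod_eq_zero (Finset.mem_univ v) (if_neg hv)
  rw [Finset.sum_congr rfl fun t _ => h1 t]
  rw [← Fintype.piFinset_univ, ← Finset.prod_univ_sum (fun _ => (univ : Finset (Fin 4)))
    (fun v j => wt α τ j * (if (v ∈ A → j = 0) ∧ (v ∈ B → j = 1) ∧ (v ∈ C → j = 2)
        then (1 : ℝ) else 0))]
  have h2 : ∀ v : Fin n, (∑ j : Fin 4, wt α τ j *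
      (if (v ∈ A → j = 0) ∧ (v ∈ B → j = 1) ∧ (v ∈ C → j = 2) then (1 : ℝ) else 0)) =
      (if v ∈ A then α else 1) * ((if v ∈ B then τ else 1) * (if v ∈ C then τ else 1)) := by
    intro v
    by_cases hA : v ∈ A
    · have hB : v ∉ B := Finset.disjoint_left.mp hAB hA
      have hC : v ∉ C := Finset.disjoint_left.mp hAC hA
      simp [hA, hB, hC, wt, Fin.sum_univ_four]
    · by_cases hB : v ∈ B
      · have hC : v ∉ C := Finset.disjoint_left.mp hBC hB
        simp [hA, hB, hC, wt, Fin.sum_univ_four]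
      · by_cases hC : v ∈ C
        · simp [hA, hB, hC, wt, Fin.sum_univ_four]
        · have := sum_wt α τ
          simpa [hA, hB, hC] using this
  rw [Finset.prod_congr rfl fun v _ => h2 v, Finset.prod_mul_distrib, Finset.prod_mul_distrib,
    prod_ite_pow, prod_ite_pow, prod_ite_pow, pow_add]

lemma sum_all {n : ℕ} (α τ : ℝ) : ∑ t : Fin n → Fin 4, ∏ v, wt α τ (t v) = 1 := by
  classical
  have h := sum_colour (n := n) α τ (A := ∅) (B := ∅) (C := ∅) (by simp) (by simp) (by simp)
  simpa using h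

end ExtAux

open ExtAux in
theorem ext {I : Type} [Fintype I] {n D r : ℕ} (c : I → ℝ) (A B C : I → Finset (Fin n))
    (hAB : ∀ i, Disjoint (A i) (B i)) (hAC : ∀ i, Disjoint (A i) (C i))
    (hBC : ∀ i, Disjoint (B i) (C i)) (hA : ∀ i, c i ≠ 0 → (A i).card ≤ D)
    (hcard : ∀ i, c i ≠ 0 → (B i).card + (C i).card ≤ r) (E : ℝ)
    (hE : ∀ T₀ T₂ T₃ : Finset (Fin n), Disjoint T₀ T₂ → Disjoint T₀ T₃ → Disjoint T₂ T₃ →
      |∑ i, if A i ⊆ T₀ ∧ B i ⊆ T₂ ∧ C i ⊆ T₃ then c i else 0| ≤ E) :
    |∑ i, c i| ≤ Kext r D * E := by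
  classical
  have hE0 : 0 ≤ E := (abs_nonneg _).trans (hE ∅ ∅ ∅ (by simp) (by simp) (by simp))
  -- step 1
  have step1 : ∀ α τ : ℝ, 0 ≤ α → 0 ≤ τ → α + 2 * τ ≤ 1 →
      |∑ i, c i * (α ^ (A i).card * τ ^ ((B i).card + (C i).card))| ≤ E := by
    intro α τ hα hτ hατ
    have hw : ∀ j, 0 ≤ wt α τ j := by
      intro j
      fin_cases j
      · simpa [wt] using hα
      · simpa [wt] using hτ
      · simpa [wt] using hτ
      · have : 0 ≤ 1 - α - 2 * τ := by linarith
        simpa [wt] using this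
    have h1 : ∑ i, c i * (α ^ (A i).card * τ ^ ((B i).card + (C i).card)) =
        ∑ t : Fin n → Fin 4, (∏ v, wt α τ (t v)) *
          ∑ i, (if A i ⊆ univ.filter (fun v => t v = 0) ∧ B i ⊆ univ.filter (fun v => t v = 1) ∧
        C i ⊆ univ.filter (fun v => t v = 2) then c i else 0) := by
      calc ∑ i, c i * (α ^ (A i).card * τ ^ ((B i).card + (C i).card))
          = ∑ i, ∑ t : Fin n → Fin 4, (∏ v, wt α τ (t v)) *
            (if A i ⊆ univ.filter (fun v => t v = 0) ∧ B i ⊆ univ.filter (fun v => t v = 1) ∧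
              C i ⊆ univ.filter (fun v => t v = 2) then c i else 0) := by
            refine Finset.sum_congr rfl fun i _ => ?_
            rw [← sum_colour α τ (hAB i) (hAC i) (hBC i), Finset.mul_sum]
            refine Finset.sum_congr rfl fun t _ => ?_
            split_ifs <;> ring
        _ = _ := by
            rw [Finset.sum_comm]
            refine Finset.sum_congr rfl fun t _ => ?_
            rw [Finset.mul_sum]
    rw [h1]
    calc |∑ t : Fin n → Fin 4, (∏ v, wt α τ (t v)) *
          ∑ i, (if A i ⊆ univ.filter (fun v => t v = 0) ∧ B i ⊆ univ.filter (fun v => t v = 1) ∧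
        C i ⊆ univ.filter (fun v => t v = 2) then c i else 0)|
        ≤ ∑ t : Fin n → Fin 4, |(∏ v, wt α τ (t v)) *
          ∑ i, (if A i ⊆ univ.filter (fun v => t v = 0) ∧ B i ⊆ univ.filter (fun v => t v = 1) ∧
        C i ⊆ univ.filter (fun v => t v = 2) then c i else 0)| :=
          Finset.abs_sum_le_sum_abs _ _
      _ ≤ ∑ t : Fin n → Fin 4, (∏ v, wt α τ (t v)) * E := by
          refine Finset.sum_le_sum fun t _ => ?_
          have hp : 0 ≤ ∏ v, wt α τ (t v) := Finset.prod_nonneg fun v _ => hw _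
          rw [abs_mul, abs_of_nonneg hp]
          refine mul_le_mul_of_nonneg_left ?_ hp
          apply hE
          · rw [Finset.disjoint_filter]
            intro v _ h1 h2
            rw [h1] at h2
            exact absurd h2 (by decide)
          · rw [Finset.disjoint_filter]
            intro v _ h1 h2
            rw [h1] at h2
            exact absurd h2 (by decide)
          · rw [Finset.disjoint_filter]
            intro v _ h1 h2
            rw [h1] at h2
            exact absurd h2 (by decide)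
      _ = E := by rw [← Finset.sum_mul, sum_all, one_mul]
  -- step 2
  set τ₀ : ℝ := 1 / (16 * ((D : ℝ) + 1) ^ 2) with hτ₀
  have hDp : (0 : ℝ) < (D : ℝ) + 1 := by positivity
  have hD1 : (1 : ℝ) ≤ ((D : ℝ) + 1) ^ 2 := by
    have : (0 : ℝ) ≤ D := by positivity
    nlinarith
  have hτpos : 0 < τ₀ := by rw [hτ₀]; positivity
  have hτ1 : τ₀ ≤ 1 := by
    rw [hτ₀, div_le_one (by positivity)]
    linarith
  have step2 : ∀ τ ∈ Set.Icc (0 : ℝ) τ₀,
      |∑ i, c i * τ ^ ((B i).card + (C i).card)| ≤ 2 * E := by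
    intro τ hτ
    set p : Polynomial ℝ := ∑ i, Polynomial.C (c i * τ ^ ((B i).card + (C i).card)) *
      Polynomial.X ^ (A i).card with hp
    have hpe : ∀ x, p.eval x = ∑ i, c i * (x ^ (A i).card * τ ^ ((B i).card + (C i).card)) := by
      intro x
      rw [hp, Polynomial.eval_finsetSum]
      refine Finset.sum_congr rfl fun i _ => ?_
      simp only [Polynomial.eval_mul, Polynomial.eval_C, Polynomial.eval_pow, Polynomial.eval_X]
      ring
    have hpd : p.degree ≤ D := by
      rw [hp]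
      refine (Polynomial.degree_sum_le _ _).trans ?_
      rw [Finset.sup_le_iff]
      intro i _
      by_cases hc : c i = 0
      · rw [hc]
        simp
      · refine (Polynomial.degree_C_mul_X_pow_le _ _).trans ?_
        exact_mod_cast hA i hc
    have h1 : |p.eval 1| ≤ 2 * E := by
      apply extrap_one hpd hE0 (s := 1 - 2 * τ)
      · have h2 := hτ.2
        rw [hτ₀] at h2
        have h3 : 2 / (16 * ((D : ℝ) + 1) ^ 2) = 2 * (1 / (16 * ((D : ℝ) + 1) ^ 2)) := by ring
        rw [h3]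
        linarith
      · linarith [hτ.1]
      · intro x hx
        rw [hpe]
        apply step1 x τ hx.1 hτ.1
        linarith [hx.2]
    rw [hpe] at h1
    simpa using h1
  -- step 3
  set q : Polynomial ℝ := ∑ i, Polynomial.C (c i) *
      Polynomial.X ^ ((B i).card + (C i).card) with hq
  have hqe : ∀ x, q.eval x = ∑ i, c i * x ^ ((B i).card + (C i).card) := by
    intro x
    rw [hq, Polynomial.eval_finsetSum]
    refine Finset.sum_congr rfl fun i _ => ?_
    simp only [Polynomial.eval_mul, Polynomial.eval_C, Polynomial.eval_pow, Polynomial.eval_X]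
  have hqd : q.degree ≤ r := by
    rw [hq]
    refine (Polynomial.degree_sum_le _ _).trans ?_
    rw [Finset.sup_le_iff]
    intro i _
    by_cases hc : c i = 0
    · rw [hc]
      simp
    · refine (Polynomial.degree_C_mul_X_pow_le _ _).trans ?_
      exact_mod_cast hcard i hc
  have h1 := lagrange_one hqd hτpos hτ1 (B := 2 * E) (fun x hx => by
    rw [hqe]; exact step2 x hx)
  rw [hqe] at h1
  have h2 : (∑ i, c i * (1 : ℝ) ^ ((B i).card + (C i).card)) = ∑ i, c i := by simp
  rw [h2] at h1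
  refine h1.trans (le_of_eq ?_)
  have h3 : (r : ℝ) / τ₀ = 16 * r * ((D : ℝ) + 1) ^ 2 := by
    rw [hτ₀]
    field_simp
  rw [h3]
  unfold Kext
  ring

end Pool.Agent.Helper94.HT
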