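import Pool.Agent.Helper11.Degree
import Pool.Agent.Helper61.HT.ONEA
import Pool.Agent.Helper61.HT.ONEB
import Pool.Agent.Helper37.HT.ONEC
import Pool.Agent.Helper37.HT.HYP

/-!
ONE: the part shared by the test function and the branching.
-/

set_option linter.dupNamespace false

namespace Pool.Agent.Helper94.HT

open Finset Pool.Agent.Helper11.Cube Pool.Agent.Helper11.AA Pool.Agent.Helper24.QR

namespace OneAux

/-- the small subsets -/
def small {n : ℕ} (H : Finset (Fin n)) (r : ℕ) : Finset (Finset (Fin n)) :=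
  H.powerset.filter (fun R => R.card ≤ r)

lemma card_small {n : ℕ} (H : Finset (Fin n)) (r : ℕ) : (small H r).card ≤ (H.card + 1) ^ r := by
  classical
  have h1 : small H r ⊆ (Finset.range (r + 1)).biUnion (fun j => H.powersetCard j) := by
    intro R hR
    obtain ⟨hR1, hR2⟩ := Finset.mem_filter.mp hR
    rw [Finset.mem_biUnion]
    refine ⟨R.card, Finset.mem_range.mpr (by omega), ?_⟩
    rw [Finset.mem_powersetCard]
    exact ⟨Finset.mem_powerset.mp hR1, rfl⟩
  calc (small H r).card ≤ ((Finset.range (r + 1)).biUnion (fun j => H.powersetCard j)).card :=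
        Finset.card_le_card h1
    _ ≤ ∑ j ∈ Finset.range (r + 1), (H.powersetCard j).card := Finset.card_biUnion_le
    _ ≤ ∑ j ∈ Finset.range (r + 1), H.card ^ j * 1 ^ (r - j) * r.choose j := by
        refine Finset.sum_le_sum fun j hj => ?_
        rw [Finset.card_powersetCard, one_pow, mul_one]
        have hj' := Finset.mem_range.mp hj
        have h2 : 1 ≤ r.choose j := Nat.choose_pos (by omega)
        calc H.card.choose j ≤ H.card ^ j := Nat.choose_le_pow _ _
          _ ≤ H.card ^ j * r.choose j := Nat.le_mul_of_pos_right _ h2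
    _ = (H.card + 1) ^ r := by
        rw [add_pow]
        simp

lemma sqrt_sq_le {n r : ℕ} {f : Cube n → ℝ} (hf : DegLE f r) (h0 : ∀ x, 0 ≤ f x) :
    Real.sqrt (ex (fun x => f x ^ 2)) ≤ 3 ^ r * ex f := by
  have h1 := l2_le_l1 hf
  have h2 : ex (fun x => |f x|) = ex f := ex_congr fun x => abs_of_nonneg (h0 x)
  rw [h2] at h1
  have h3 : 0 ≤ ex f := ex_nonneg h0
  apply Real.sqrt_le_iff.mpr
  refine ⟨by positivity, ?_⟩
  calc ex (fun x => f x ^ 2) ≤ 9 ^ r * ex f ^ 2 := h1
    _ = (3 ^ r * ex f) ^ 2 := by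
        rw [mul_pow, ← pow_mul, mul_comm r 2, pow_mul]
        norm_num

lemma abs_cond_le {n : ℕ} (K : Finset (Fin n)) {f : Cube n → ℝ} {B : ℝ} (h : ∀ x, |f x| ≤ B)
    (x : Cube n) : |cond K f x| ≤ B := by
  unfold Pool.Agent.Helper24.QR.cond
  calc |ex (fun y => f (mix K x y))| ≤ ex (fun y => |f (mix K x y)|) := abs_ex_le _
    _ ≤ ex (fun _ => B) := ex_mono fun y => h _
    _ = B := ex_const B

end OneAux

open OneAux

theorem partOne {n r M : ℕ} (q N : Fin M → Cube n → ℝ) (hq0 : ∀ m x, 0 ≤ q m x)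
    (hq1 : ∀ x, ∑ m, q m x = 1) (hdeg : ∀ m, DegLE (q m) r) (hN : ∀ m x, |N m x| ≤ 1)
    {g : Cube n → ℝ} {Mg : ℝ} (hMg0 : 0 ≤ Mg)
    (hMg : ∀ v, ex (fun x => discreteDeriv v g x ^ 2) ≤ Mg ^ 2)
    (H : Fin M → Finset (Fin n)) (h : ℝ) (hh : ∀ m, ((H m).card : ℝ) ≤ h)
    (T₀ T₂ T₃ : Finset (Fin n)) (h02 : Disjoint T₀ T₂) (h03 : Disjoint T₀ T₃)
    (h23 : Disjoint T₂ T₃) :
    |∑ m, ex (fun w => ex (fun y =>
        (cond (T₀ \ H m ∪ T₂ \ H m) g (mix (T₀ \ H m) w y) - cond (T₀ \ H m) g w)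
        * q m (mix (T₃ ∪ H m) w y) * N m w))|
      ≤ (h + 1) ^ r * (192 * (2 * r) ^ 2 * 3 ^ (2 * r) + Real.sqrt h * 3 ^ r) * Mg := by
  classical
  -- `h` is nonnegative
  have h0 : 0 ≤ h := by
    rcases Nat.eq_zero_or_pos M with hM | hM
    · subst hM
      have := hq1 (fun _ => 1)
      simp at this
    · exact (Nat.cast_nonneg _).trans (hh ⟨0, hM⟩)
  have hcard : ∀ m, ((small (H m) r).card : ℝ) ≤ (h + 1) ^ r := by
    intro m
    calc ((small (H m) r).card : ℝ) ≤ (((H m).card + 1) ^ r : ℕ) := by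
          exact_mod_cast card_small (H m) r
      _ = ((H m).card + 1 : ℝ) ^ r := by push_cast; rfl
      _ ≤ (h + 1) ^ r := by
          have := hh m
          gcongr
  -- the functions
  set b : Fin M × Finset (Fin n) → Cube n → ℝ := fun i y =>
    if i.2 ∈ small (H i.1) r then chi i.2 y * q i.1 y else 0 with hb
  set N' : Fin M × Finset (Fin n) → Cube n → ℝ := fun i w =>
    cond (univ \ H i.1) (fun z => chi i.2 z * N i.1 z) w with hN'
  have hbdeg : ∀ i, DegLE (b i) (2 * r) := by
    intro i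
    by_cases hi : i.2 ∈ small (H i.1) r
    · have e1 : b i = fun y => chi i.2 y * q i.1 y := by
        funext y
        simp [hb, hi]
      rw [e1]
      have hc : i.2.card ≤ r := (Finset.mem_filter.mp hi).2
      have := degLE_mul (degLE_mono (degLE_chi i.2) hc) (hdeg i.1)
      rw [two_mul]
      exact this
    · have e1 : b i = fun _ => 0 := by
        funext y
        simp [hb, hi]
      rw [e1]
      exact degLE_const 0
  have hN'1 : ∀ i w, |N' i w| ≤ 1 := by
    intro i w
    apply abs_cond_le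
    intro x
    rw [abs_mul, abs_chi, one_mul]
    exact hN _ _
  have hbL : ∀ y, ∑ i, |b i y| ≤ (h + 1) ^ r := by
    intro y
    rw [Fintype.sum_prod_type]
    calc ∑ m, ∑ R, |b (m, R) y| = ∑ m, ((small (H m) r).card : ℝ) * q m y := by
          refine Finset.sum_congr rfl fun m _ => ?_
          have e1 : ∀ R : Finset (Fin n), |b (m, R) y| =
              if R ∈ small (H m) r then q m y else 0 := by
            intro R
            simp only [hb]
            split_ifs with hR
            · rw [abs_mul, abs_chi, one_mul, abs_of_nonneg (hq0 m y)]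
            · simp
          rw [Finset.sum_congr rfl fun R _ => e1 R, Finset.sum_ite_mem, Finset.univ_inter,
            Finset.sum_const, nsmul_eq_mul]
      _ ≤ ∑ m, (h + 1) ^ r * q m y := by
          refine Finset.sum_le_sum fun m _ => ?_
          exact mul_le_mul_of_nonneg_right (hcard m) (hq0 m y)
      _ = (h + 1) ^ r := by rw [← Finset.mul_sum, hq1, mul_one]
  -- the main terms
  set Y : Fin M → Finset (Fin n) → ℝ := fun m R => ex (fun w => ex (fun y =>
    (cond (T₀ ∪ T₂) g (mix T₀ w y) - cond T₀ g w) * (chi R (mix T₃ w y) * q m (mix T₃ w y)) *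
      cond (univ \ H m) (fun z => chi R z * N m z) w)) with hY
  set X : Fin M → Finset (Fin n) → ℝ := fun m R => ex (fun w => ex (fun y =>
    (cond (T₀ \ H m ∪ T₂ \ H m) g (mix (T₀ \ H m) w y) - cond (T₀ \ H m) g w) *
      (chi R (mix T₃ w y) * q m (mix T₃ w y)) *
      cond (univ \ H m) (fun z => chi R z * N m z) w)) with hX
  have hmain : |∑ m, ∑ R ∈ small (H m) r, Y m R| ≤
      192 * (2 * r) ^ 2 * 3 ^ (2 * r) * (h + 1) ^ r * Mg := by
    have h1 := oneC b hbdeg _ hbL N' hN'1 hMg0 hMg T₀ T₂ T₃ h02 h03 h23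
    rw [Fintype.sum_prod_type] at h1
    have h2 : (∑ m, ∑ R, ex (fun w => ex (fun y => (cond (T₀ ∪ T₂) g (mix T₀ w y) - cond T₀ g w)
        * b (m, R) (mix T₃ w y) * N' (m, R) w))) = ∑ m, ∑ R ∈ small (H m) r, Y m R := by
      refine Finset.sum_congr rfl fun m _ => ?_
      have e1 : ∀ R : Finset (Fin n), ex (fun w => ex (fun y =>
          (cond (T₀ ∪ T₂) g (mix T₀ w y) - cond T₀ g w)
          * b (m, R) (mix T₃ w y) * N' (m, R) w)) = if R ∈ small (H m) r then Y m R else 0 := by
        intro R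
        split_ifs with hR
        · simp only [hb, hN', hY, hR, if_true]
        · have e2 : (fun w : Cube n => ex (fun y : Cube n =>
              (cond (T₀ ∪ T₂) g (mix T₀ w y) - cond T₀ g w)
              * b (m, R) (mix T₃ w y) * N' (m, R) w)) = fun _ => 0 := by
            funext w
            have e3 : (fun y : Cube n => (cond (T₀ ∪ T₂) g (mix T₀ w y) - cond T₀ g w)
              * b (m, R) (mix T₃ w y) * N' (m, R) w) = fun _ => 0 := by
              funext y
              simp [hb, hR]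
            rw [e3, ex_const]
          rw [e2, ex_const]
      rw [Finset.sum_congr rfl fun R _ => e1 R, Finset.sum_ite_mem, Finset.univ_inter]
    rw [h2] at h1
    push_cast at h1
    exact h1
  -- the differences
  have hdiff : ∀ m, ∀ R ∈ small (H m) r, |Y m R - X m R| ≤
      Real.sqrt h * Mg * (3 ^ r * ex (q m)) := by
    intro m R hR
    have hcN : ∀ x, |cond (univ \ H m) (fun z => chi R z * N m z) x| ≤ 1 := fun x =>
      hN'1 (m, R) x
    have h1 := oneB (b := fun y => chi R y * q m y)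
      (N := fun w => cond (univ \ H m) (fun z => chi R z * N m z) w) hMg hMg0 hcN (H m)
      T₀ T₂ T₃ h02
    refine h1.trans ?_
    have h2 : ex (fun x => (chi R x * q m x) ^ 2) = ex (fun x => q m x ^ 2) := by
      apply ex_congr
      intro x
      have := chi_mul_self R x
      rw [mul_pow, sq (chi R x), this, one_mul]
    rw [h2]
    have h3 := sqrt_sq_le (hdeg m) (hq0 m)
    have h4 : Real.sqrt (H m).card ≤ Real.sqrt h := Real.sqrt_le_sqrt (hh m)
    have h5 : 0 ≤ Real.sqrt (ex (fun x => q m x ^ 2)) := Real.sqrt_nonneg _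
    have h6 : 0 ≤ Real.sqrt (H m).card := Real.sqrt_nonneg _
    gcongr
  have hsum : |∑ m, ∑ R ∈ small (H m) r, Y m R - ∑ m, ∑ R ∈ small (H m) r, X m R| ≤
      (h + 1) ^ r * (Real.sqrt h * 3 ^ r) * Mg := by
    rw [← Finset.sum_sub_distrib]
    have h1 : ∑ m, ex (q m) = 1 := by
      rw [← ex_sum]
      rw [ex_congr (g := fun _ => 1) fun x => hq1 x, ex_const]
    calc |∑ m, (∑ R ∈ small (H m) r, Y m R - ∑ R ∈ small (H m) r, X m R)|
        ≤ ∑ m, |∑ R ∈ small (H m) r, Y m R - ∑ R ∈ small (H m) r, X m R| :=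
          Finset.abs_sum_le_sum_abs _ _
      _ ≤ ∑ m, (h + 1) ^ r * (Real.sqrt h * Mg * (3 ^ r * ex (q m))) := by
          refine Finset.sum_le_sum fun m _ => ?_
          rw [← Finset.sum_sub_distrib]
          have h2 : 0 ≤ Real.sqrt h * Mg * (3 ^ r * ex (q m)) := by
            have := ex_nonneg (hq0 m)
            positivity
          calc |∑ R ∈ small (H m) r, (Y m R - X m R)| ≤ ∑ R ∈ small (H m) r, |Y m R - X m R| :=
                Finset.abs_sum_le_sum_abs _ _
            _ ≤ ∑ R ∈ small (H m) r, Real.sqrt h * Mg * (3 ^ r * ex (q m)) :=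
                Finset.sum_le_sum (hdiff m)
            _ = (small (H m) r).card * (Real.sqrt h * Mg * (3 ^ r * ex (q m))) := by
                rw [Finset.sum_const, nsmul_eq_mul]
            _ ≤ (h + 1) ^ r * (Real.sqrt h * Mg * (3 ^ r * ex (q m))) :=
                mul_le_mul_of_nonneg_right (hcard m) h2
      _ = (h + 1) ^ r * (Real.sqrt h * 3 ^ r) * Mg * ∑ m, ex (q m) := by
          rw [Finset.mul_sum]
          refine Finset.sum_congr rfl fun m _ => ?_
          ring
      _ = (h + 1) ^ r * (Real.sqrt h * 3 ^ r) * Mg := by rw [h1, mul_one]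
  -- conclusion
  have hexp : (∑ m, ex (fun w => ex (fun y =>
        (cond (T₀ \ H m ∪ T₂ \ H m) g (mix (T₀ \ H m) w y) - cond (T₀ \ H m) g w)
        * q m (mix (T₃ ∪ H m) w y) * N m w))) = ∑ m, ∑ R ∈ small (H m) r, X m R := by
    refine Finset.sum_congr rfl fun m _ => ?_
    exact oneA (hdeg m) (H m) T₀ T₂ T₃ h02 h03 h23
  rw [hexp]
  have h7 : |∑ m, ∑ R ∈ small (H m) r, X m R| ≤ |∑ m, ∑ R ∈ small (H m) r, Y m R| +
      |∑ m, ∑ R ∈ small (H m) r, Y m R - ∑ m, ∑ R ∈ small (H m) r, X m R| := by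
    have := abs_sub_abs_le_abs_sub (∑ m, ∑ R ∈ small (H m) r, X m R)
      (∑ m, ∑ R ∈ small (H m) r, Y m R)
    rw [abs_sub_comm (∑ m, ∑ R ∈ small (H m) r, X m R)] at this
    linarith
  calc |∑ m, ∑ R ∈ small (H m) r, X m R| ≤ _ := h7
    _ ≤ 192 * (2 * r) ^ 2 * 3 ^ (2 * r) * (h + 1) ^ r * Mg +
        (h + 1) ^ r * (Real.sqrt h * 3 ^ r) * Mg := add_le_add hmain hsum
    _ = (h + 1) ^ r * (192 * (2 * r) ^ 2 * 3 ^ (2 * r) + Real.sqrt h * 3 ^ r) * Mg := by ring

end Pool.Agent.Helper94.HT
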